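import Mathlib
import Pool.Agent.Results.MP_308fa9_nt.EmptyBrauerManinSet
import Pool.Agent.Results.MP_308fa9_nt.BrauerManinMixedFactors
import Pool.Agent.V11109.DEC.Law

/-!
# The Brauer-Manin set is empty for almost all quadratic twists by the terms of sparse sequences

Let `p > 1` be a real number. There is a set `A₀` of real numbers of Hausdorff dimension smaller than
one such that the following holds for all `α > 0` outside `A₀`, with `t_j = ⌊α j ^ p⌋` (there are about
`X ^ (1 / p)` terms up to `X`). Let `f_k ∈ ℤ[x]`, `k < n`, be irreducible over `ℚ` and pairwise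
non-associated, either all of even degrees, or none of them linear, of even total degree and at least four
of them of odd degree, and let `C d` be the curve `d y² = ∏ F_k (x, w)`, `F_k` the homogenisation. Then for
every nonzero integer `e` the Brauer-Manin set of `C d`, `d = e t_j`, is empty for all `j ≤ N` for which
`e t_j` is squarefree, with at most `C N (log N) ^ (-δ)` exceptions. For these curves the conjecture of Stoll
is true: there are no rational points and no adelic points orthogonal to the Brauer group. At least a
third of the `t_j` are squarefree.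
-/

set_option autoImplicit false

namespace Pool.Agent.Results.MP_308fa9_nt.EmptySetsAlongSequences

open Finset Polynomial

open Pool.Agent.W313.BMX (Admissible AdelicPoint)
open Pool.Agent.V11109.DEC (term Rare ManySquarefree)

/-- `d` is squarefree and some adelic point of `C d` is orthogonal to the classes `(F_k, e)`, `e` a
nonzero integer, of the Brauer group -/
def Bad {n : ℕ} (f : Fin n → ℤ[X]) (d : ℤ) : Prop :=
  Squarefree d ∧ ∃ P : AdelicPoint f d, Pool.Agent.W313.BMX.Orthogonal P

/-- `d` is squarefree and some adelic point of `C d` is orthogonal to the classes `(F_k, e)` (`deg F_k`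
even) and `(F_k F_l, e)` (`deg F_k`, `deg F_l` odd), `e` a nonzero integer, of the Brauer group -/
def BadMixed {n : ℕ} (f : Fin n → ℤ[X]) (d : ℤ) : Prop :=
  Squarefree d ∧ ∃ P : AdelicPoint f d, BrauerManinMixedFactors.Orthogonal P

/-- **Main result.** For every real `p > 1` there is a set `A₀` of real numbers of Hausdorff dimension
smaller than one such that: at least `N / 3` of the `t_j`, `j ≤ N`, are squarefree (`α > 0` outside `A₀`,
`N` large); for all `f` with irreducible, pairwise non-associated factors of even degrees there is `δ > 0`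
such that the bad integers are rare along the sequences `e t_j` with the exponent `δ`; and the same for all
`f` with irreducible, pairwise non-associated factors, none of them linear, of even total degree, at least
four of them of odd degree. -/
theorem result (p : ℝ) (hp : 1 < p) : ∃ A₀ : Set ℝ, dimH A₀ < 1 ∧ ManySquarefree p A₀ ∧
    (∀ (n : ℕ) (f : Fin n → ℤ[X]), Admissible f → ∃ δ : ℝ, 0 < δ ∧ Rare p A₀ δ (Bad f)) ∧
    ∀ (n : ℕ) (f : Fin n → ℤ[X]), BrauerManinMixedFactors.Factors f →
      (∀ k, (f k).natDegree ≠ 1) → ∃ δ : ℝ, 0 < δ ∧ Rare p A₀ δ (BadMixed f) := by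
  have hcp := Pool.Agent.V11109.TWI.countable_poly
  obtain ⟨A₀, hA₀, hsq, h⟩ := Pool.Agent.V11109.DEC.rare p hp
    (fun v : (Σ n : ℕ, Fin n → ℤ[X]) × Bool => if v.2 = true then Bad v.1.2 else BadMixed v.1.2)
  refine ⟨A₀, hA₀, hsq, fun n f hf => ?_, fun n f hf hl => ?_⟩
  · obtain ⟨⟨δ, hδ, C, hC⟩, -⟩ := EmptyBrauerManinSet.result.1 (Fin n) f hf
    exact ⟨δ, hδ, h ⟨⟨n, f⟩, true⟩ C δ hδ.le hC⟩
  · obtain ⟨δ, hδ, C, hC⟩ := BrauerManinMixedFactors.result.1 (Fin n) f hf hl
    exact ⟨δ, hδ, h ⟨⟨n, f⟩, false⟩ C δ hδ.le hC⟩

end Pool.Agent.Results.MP_308fa9_nt.EmptySetsAlongSequences
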