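import Pool.Agent.Results.MP_308fa9_nt.ClosuresInFamilies
import Pool.Agent.Results.MP_308fa9_nt.FamiliesOverExtensions
import Pool.Agent.H107.EpsZero2
import Pool.Agent.H107.NFCount

/-!
# Members of families of curves close to a point and closures of the Mordell-Weil groups

`E : y² = x³ + a x + b` is an elliptic curve over a number field `K` (any rank), and `X` is a closed subset of
`E ^ r × ℙ ^ n` over `K`, a family of closed subsets `X_y ⊆ E ^ r` (for example curves) with parameter space `ℙ ^ n`.
Let `φ` be any map from `ℙ ^ n (K)` to a metric space `X`, for example to the projective space over `ℝ`, `ℂ` or any other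
completion of `K`, or to a product of such spaces.

1. Suppose that the fibres of `X → E ^ r` have at most `D` points. There is a set of Hausdorff dimension zero such that
for all `z` outside of it, all `w > 0` (arbitrarily small) and ALL finite sets `S` of finite places of `K`: for all but
finitely many of the points `y` in `ℙ ^ n (K)` at distance at most `H(y) ^ (-w)` from `z`, the closure of the group
`E(K) ^ r` in the product of the `E(K_v) ^ r` over all finite places `v` outside of `S` does not meet the product of the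
`X_y(K_v)`.

2. Suppose that for all `2 ≤ m ≤ M` every complex point of `E ^ r` is a sum of `m` points of `X_y` for at most `D` of the
`y`. Then the same holds over ALL extensions `F` of `K` of degree between `2` and `M` at once.

The input are the bounds `O(B ^ ε)` for the number of the exceptional points of height at most `B` (starting results
`ClosuresInFamilies`, `FamiliesOverExtensions`).
-/

set_option autoImplicit false

namespace Pool.Agent.Results.MP_308fa9_nt.MembersNearPoints

open MvPolynomial NumberField IsDedekindDomain Pool.Agent.TH954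

open scoped LinearAlgebra.Projectivization

open Pool.Agent.Results.MP_308fa9_nt.ClosuresInFamilies (OnE MultiHomog Fibre)
open Pool.Agent.Results.MP_308fa9_nt.FamiliesOverExtensions (IsSum MultiHom curve)

/-- **Theorem.** (1) `ClosuresInFamilies.Unobstructed a b G S` is the set of the points `y` such that some point of the
product of the `X_y(K_v)`, `v` outside `S`, lies in the closure of `E(K) ^ r`. (2)
`FamiliesOverExtensions.Unobstructed a b G T M` is the set of the points `y` such that, for some extension `F` of `K` of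
degree between `2` and `M`, some point of the product of the `X_y(F_w)`, `w` not above `T`, lies in the closure of
`E(F) ^ r`. -/
theorem result (K : Type) [Field K] [NumberField K] (a b : 𝓞 K)
    (hE : 4 * a ^ 3 + 27 * b ^ 2 ≠ 0) (r n q : ℕ)
    (G : Fin q → MvPolynomial ((Fin r × Fin 3) ⊕ Fin (n + 1)) (𝓞 K))
    (d : Fin q → Fin r → ℕ) (deg : Fin q → ℕ) (hG : ∀ e, MultiHomog (G e) (d e) (deg e))
    (σ : K →+* ℂ) (D : ℕ) (X : Type) [MetricSpace X] (φ : ℙ K (Fin (n + 1) → K) → X) :
    ((∀ V : Fin r → Fin 3 → ℂ, (∀ i, OnE (σ a) (σ b) (V i)) →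
        (Fibre (σ.comp (algebraMap (𝓞 K) K)) G V).encard ≤ D) →
      ∃ E : Set X, dimH E = 0 ∧ ∀ z ∉ E, ∀ w : ℝ, 0 < w → ∀ S : Set (HeightOneSpectrum (𝓞 K)), S.Finite →
        {y | y ∈ Pool.Agent.Results.MP_308fa9_nt.ClosuresInFamilies.Unobstructed a b G S ∧
          dist (φ y) z ≤ y.mulHeight ^ (-w)}.Finite) ∧
    (∀ M : ℕ, (∀ m, 2 ≤ m → m ≤ M → ∀ S : Fin r → (curve (σ a) (σ b)).toAffine.Point,
        {y : ℙ ℂ (Fin (n + 1) → ℂ) | IsSum σ a b G m S y.rep}.encard ≤ D) →
      ∃ E : Set X, dimH E = 0 ∧ ∀ z ∉ E, ∀ w : ℝ, 0 < w → ∀ T : Finset ℕ, (∀ p ∈ T, p.Prime) →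
        {y | y ∈ Pool.Agent.Results.MP_308fa9_nt.FamiliesOverExtensions.Unobstructed a b G T M ∧
          dist (φ y) z ≤ y.mulHeight ^ (-w)}.Finite) := by
  refine ⟨fun hX => ?_, fun M hX => ?_⟩
  · have := Pool.Agent.H107.NF.countable_hos K
    obtain ⟨E, h1, h2⟩ := Pool.Agent.H107.ME.eps_zero_countable (ι := Finset (HeightOneSpectrum (𝓞 K))) φ
      (fun y => y.mulHeight) (fun y => y.one_le_mulHeight)
      (fun S => Pool.Agent.Results.MP_308fa9_nt.ClosuresInFamilies.Unobstructed a b G (S : Set (HeightOneSpectrum (𝓞 K))))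
      (fun S ε hε => Pool.Agent.Results.MP_308fa9_nt.ClosuresInFamilies.result K a b hE r n q G d deg hG σ D hX
        (S : Set (HeightOneSpectrum (𝓞 K))) (Finset.finite_toSet S) ε hε)
    refine ⟨E, h1, fun z hz w hw S hS => ?_⟩
    have h3 := h2 z hz hS.toFinset w hw
    rw [Set.Finite.coe_toFinset] at h3
    exact h3
  · obtain ⟨E, h1, h2⟩ := Pool.Agent.H107.ME.eps_zero_countable (ι := {T : Finset ℕ // ∀ p ∈ T, p.Prime}) φ
      (fun y => y.mulHeight) (fun y => y.one_le_mulHeight)
      (fun T => Pool.Agent.Results.MP_308fa9_nt.FamiliesOverExtensions.Unobstructed a b G T.1 M)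
      (fun T ε hε => Pool.Agent.Results.MP_308fa9_nt.FamiliesOverExtensions.result K a b hE r n q G d deg hG σ M D hX
        T.1 T.2 ε hε)
    exact ⟨E, h1, fun z hz w hw T hT => h2 z hz ⟨T, hT⟩ w hw⟩

end Pool.Agent.Results.MP_308fa9_nt.MembersNearPoints
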